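import Pool.Agent.Helper11.PV.St

/-! Project PV (MP_e12aa9_pr), module NUM: numbers. -/

set_option autoImplicit false

namespace Pool.Agent.Helper98.PV

open Finset Pool.Agent.Helper82.CN Pool.Agent.Helper11.PV

/-- one term of the binomial theorem -/
theorem choose_mul_pow_le (m t : ℕ) (htm : t ≤ m) (y : ℝ) (hy : 0 ≤ y) :
    ((m.choose t : ℕ) : ℝ) * y ^ t ≤ Real.exp (y * m) := by
  have h1 : ((m.choose t : ℕ) : ℝ) * y ^ t ≤ (y + 1) ^ m := by
    rw [add_pow]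
    have h2 := Finset.single_le_sum (s := Finset.range (m + 1))
      (f := fun k => y ^ k * (1 : ℝ) ^ (m - k) * (m.choose k : ℝ))
      (fun k _ => by positivity) (Finset.mem_range.2 (Nat.lt_succ_of_le htm))
    simp only [one_pow, mul_one] at h2 ⊢
    rw [mul_comm]
    exact h2
  refine h1.trans ?_
  have h3 : y + 1 ≤ Real.exp y := Real.add_one_le_exp y
  calc (y + 1) ^ m ≤ (Real.exp y) ^ m := pow_le_pow_left₀ (by positivity) h3 m
    _ = Real.exp (y * m) := by rw [← Real.exp_nat_mul, mul_comm]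

theorem tNUM : StNUM := by
  intro K hK
  set K1 : ℝ := max K 1 with hK1
  have hK1K : K ≤ K1 := le_max_left _ _
  have hK11 : (1 : ℝ) ≤ K1 := le_max_right _ _
  set Z : ℝ := 16 * K1 + 32 with hZ
  have hZpos : 0 < Z := by rw [hZ]; linarith
  have hZ3 : Real.exp 1 ≤ Z := by
    have := Real.exp_one_lt_d9
    rw [hZ]
    linarith
  set Y : ℝ := Real.log Z with hY
  have hY1 : 1 ≤ Y := by
    rw [hY, Real.le_log_iff_exp_le hZpos]
    exact hZ3
  set c : ℝ := 1 / (32 * Y) with hc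
  have hcpos : 0 < c := by rw [hc]; positivity
  have hcY : c * Y = 1 / 32 := by
    rw [hc]
    field_simp
  have hc1 : c ≤ 1 := by nlinarith
  refine ⟨c, hcpos, ?_⟩
  -- `n₀`
  obtain ⟨n₀, hn₀⟩ := exists_nat_ge (Real.exp (1 / c))
  refine ⟨n₀, fun n hn => ?_⟩
  have hnR : Real.exp (1 / c) ≤ (n : ℝ) := hn₀.trans (by exact_mod_cast hn)
  have hnpos : (0 : ℝ) < n := lt_of_lt_of_le (Real.exp_pos _) hnR
  set L : ℝ := Real.log n with hL
  have hLc : 1 / c ≤ L := by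
    rw [hL, Real.le_log_iff_exp_le hnpos]
    exact hnR
  have hcL : 1 ≤ c * L := by
    rw [div_le_iff₀ hcpos] at hLc
    linarith
  have hL1 : 1 ≤ L := by
    have : 1 ≤ 1 / c := by rw [le_div_iff₀ hcpos]; linarith
    linarith
  have hl1 : 2 * c * L < (⌊2 * c * L⌋₊ : ℝ) + 1 := Nat.lt_floor_add_one _
  have hl2 : (⌊2 * c * L⌋₊ : ℝ) ≤ 2 * c * L := Nat.floor_le (by positivity)
  have hh1 : (⌈K * L⌉₊ : ℝ) < K * L + 1 := Nat.ceil_lt_add_one (by positivity)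
  have hlc : c * L ≤ (⌊2 * c * L⌋₊ : ℝ) := by linarith
  refine ⟨⌊2 * c * L⌋₊, ?_, hlc, ?_⟩
  · have : (1 : ℝ) ≤ (⌊2 * c * L⌋₊ : ℝ) := hcL.trans hlc
    exact_mod_cast this
  set l : ℕ := ⌊2 * c * L⌋₊ with hl
  set h : ℕ := ⌈K * L⌉₊ with hh
  have hht : (h : ℝ) ≤ 2 * K1 * L := by nlinarith
  have htt : ((l + 1 : ℕ) : ℝ) ≤ 4 * c * L := by
    push_cast
    linarith
  have hZi : (0 : ℝ) < 1 / Z := by positivity
  have key := choose_mul_pow_le (h + (l + 1)) (l + 1) (Nat.le_add_left _ _) (1 / Z) hZi.le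
  have hpow : (1 / Z) ^ (l + 1) = Real.exp (-(((l + 1 : ℕ) : ℝ) * Y)) := by
    rw [hY, Real.exp_neg, Real.exp_nat_mul, Real.exp_log hZpos, one_div, inv_pow]
  rw [hpow] at key
  have key2 : (((h + (l + 1)).choose (l + 1) : ℕ) : ℝ) ≤
      Real.exp (1 / Z * ((h + (l + 1) : ℕ) : ℝ) + ((l + 1 : ℕ) : ℝ) * Y) := by
    rw [Real.exp_add]
    calc (((h + (l + 1)).choose (l + 1) : ℕ) : ℝ)
        = (((h + (l + 1)).choose (l + 1) : ℕ) : ℝ) * Real.exp (-(((l + 1 : ℕ) : ℝ) * Y)) *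
          Real.exp (((l + 1 : ℕ) : ℝ) * Y) := by
          rw [mul_assoc, ← Real.exp_add, neg_add_cancel, Real.exp_zero, mul_one]
      _ ≤ Real.exp (1 / Z * ((h + (l + 1) : ℕ) : ℝ)) * Real.exp (((l + 1 : ℕ) : ℝ) * Y) :=
          mul_le_mul_of_nonneg_right key (Real.exp_pos _).le
  refine key2.trans ?_
  rw [Real.rpow_def_of_pos hnpos]
  refine Real.exp_le_exp.2 ?_
  have e1 : 1 / Z * ((h + (l + 1) : ℕ) : ℝ) ≤ 1 / 8 * L := by
    rw [div_mul_eq_mul_div, one_mul, div_le_iff₀ hZpos]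
    have h1 : ((h + (l + 1) : ℕ) : ℝ) = (h : ℝ) + ((l + 1 : ℕ) : ℝ) := by push_cast; ring
    rw [h1]
    have h2 : 4 * c * L ≤ 4 * L := by nlinarith
    have h3 : (1 / 8 * L) * Z = 2 * K1 * L + 4 * L := by rw [hZ]; ring
    rw [h3]
    linarith
  have e2 : ((l + 1 : ℕ) : ℝ) * Y ≤ 1 / 8 * L := by
    calc ((l + 1 : ℕ) : ℝ) * Y ≤ (4 * c * L) * Y :=
          mul_le_mul_of_nonneg_right htt (by linarith)
      _ = 4 * (c * Y) * L := by ring
      _ = 1 / 8 * L := by rw [hcY]; ring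
  linarith

end Pool.Agent.Helper98.PV
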