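import Pool.Agent.Helper61.PV.St

/-!
# Project PV, module Fmo: first moment, general form
-/

set_option autoImplicit false

namespace Pool.Agent.Helper98.PV

open Pool.Agent.Helper61.PV Finset
open Pool.Agent.Helper48.BK (th StSW)

theorem fmo_ev_add {d : ℕ} (W : ℤ) (F a c : Fin (d + 1) → ℤ) (m : ℤ) :
    ev (lin W F (a + c)) m = ev (lin W F a) m + W * ev c m := by
  unfold ev lin
  rw [Finset.mul_sum, ← Finset.sum_add_distrib]
  refine Finset.sum_congr rfl (fun i _ => ?_)
  rw [Pi.add_apply]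
  ring

theorem fmo_ev_lin {d : ℕ} (W : ℤ) (F a : Fin (d + 1) → ℤ) (m : ℤ) :
    ev (lin W F a) m = ev F m + W * ev a m := by
  unfold ev lin
  rw [Finset.mul_sum, ← Finset.sum_add_distrib]
  refine Finset.sum_congr rfl (fun i _ => ?_)
  ring

theorem fmo_th_nonneg (n : ℕ) : 0 ≤ th n := by
  unfold Pool.Agent.Helper48.BK.th
  split_ifs
  · exact Real.log_natCast_nonneg n
  · exact le_rfl

theorem fmo_thz_nonneg (n : ℤ) : 0 ≤ thz n := fmo_th_nonneg _

theorem fmo_dig (hDig : StDig) {d m B R : ℕ} (hm : 1 ≤ m) (hmR : m ≤ R) (hBR : B ≤ R) :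
    ∀ u, u < m ^ d * B → ∃ b : Fin (d + 1) → ℤ, (∀ i, |b i| ≤ R) ∧ ev b m = u := by
  intro u hu
  obtain ⟨b, h0, h1, h2, h3⟩ := hDig d m B u hm hu
  refine ⟨b, fun i => ?_, h3⟩
  rw [abs_of_nonneg (h0 i)]
  rcases Nat.lt_or_ge (i : ℕ) d with hi | hi
  · have := h1 i hi
    have h4 : (m : ℤ) ≤ R := by exact_mod_cast hmR
    omega
  · have hi' : i = Fin.last d := by
      apply Fin.ext
      rw [Fin.val_last]
      have := i.2
      omega
    rw [hi']
    have h4 : (B : ℤ) ≤ R := by exact_mod_cast hBR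
    omega

theorem fmo_in {d m N W x : ℕ} {E : ℝ} {F a : Fin (d + 1) → ℤ} {b : ℕ → Fin (d + 1) → ℤ}
    (hA : APB W N x E) (hb : ∀ u, u < N → ev (b u) m = u) (h1 : 1 ≤ ev (lin W F a) m)
    (h2 : ev (lin W F a) m + W * (N : ℕ) ≤ x + 1) (hcop : Nat.Coprime (ev F m).natAbs W) :
    |∑ u ∈ range N, thz (ev (lin W F (a + b u)) m) - (W : ℝ) * N / Nat.totient W| ≤ E := by
  obtain ⟨y, hy⟩ := Int.eq_ofNat_of_zero_le (zero_le_one.trans h1)
  rw [hy] at h1 h2
  have hy1 : 1 ≤ y := by exact_mod_cast h1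
  have hy2 : y + W * N ≤ x + 1 := by exact_mod_cast h2
  have hc : Nat.Coprime y W := by
    rw [← Nat.isCoprime_iff_coprime, ← hy, fmo_ev_lin]
    have h3 : IsCoprime (ev F m) (W : ℤ) := by
      rw [Int.isCoprime_iff_gcd_eq_one]
      simpa [Int.gcd] using hcop
    exact IsCoprime.add_mul_left_left h3 _
  have h4 := hA y hy1 hy2
  rw [if_pos hc] at h4
  have h5 : ∑ u ∈ range N, thz (ev (lin W F (a + b u)) m) = ∑ u ∈ range N, th (y + W * u) := by
    refine Finset.sum_congr rfl (fun u hu => ?_)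
    rw [mem_range] at hu
    rw [fmo_ev_add, hb u hu, hy]
    unfold thz
    have h6 : (y : ℤ) + (W : ℤ) * (u : ℤ) = ((y + W * u : ℕ) : ℤ) := by push_cast; ring
    rw [h6, Int.toNat_natCast]
  rw [h5]
  exact h4

theorem fmo_mem {d : ℕ} {A : Fin (d + 1) → ℤ} {h : Fin (d + 1) → ℕ} {a : Fin (d + 1) → ℤ} :
    a ∈ Bx A h ↔ ∀ i, A i ≤ a i ∧ a i < A i + h i := by
  unfold Bx
  rw [Fintype.mem_piFinset]
  simp only [mem_Ico]

theorem hFmo (hTra : StTra) (hCar : StCar) (hDig : StDig) : StFmo := by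
  intro d m B R W x E F A h hm hB hW hmR hBR hE hAPB hsize hcop
  have hdig := fmo_dig hDig (d := d) hm hmR hBR
  choose! b hb1 hb2 using hdig
  set N : ℕ := m ^ d * B with hN
  set G : (Fin (d + 1) → ℤ) → ℝ := fun g => thz (ev (lin W F g) m) with hG
  have hG0 : ∀ g, 0 ≤ G g := fun g => fmo_thz_nonneg _
  have hin : ∀ a : Fin (d + 1) → ℤ, (∀ i, A i - R ≤ a i ∧ a i < A i + h i + R) →
      |∑ u ∈ range N, G (a + b u) - (W : ℝ) * N / Nat.totient W| ≤ E := by
    intro a ha
    obtain ⟨h1, h2⟩ := hsize a ha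
    exact fmo_in hAPB hb2 h1 h2 hcop
  constructor
  · have h1 : ∀ u ∈ range N, ∑ g ∈ Bx A h, G g ≤
        ∑ a ∈ Bx (fun i => A i - R) (fun i => h i + 2 * R), G (a + b u) := fun u hu =>
      (hTra d R A (b u) h G hG0 (hb1 u (mem_range.1 hu))).1
    have h2 := Finset.sum_le_sum h1
    rw [Finset.sum_const, card_range, nsmul_eq_mul, Finset.sum_comm] at h2
    refine h2.trans ?_
    have h3 : ∀ a ∈ Bx (fun i => A i - R) (fun i => h i + 2 * R),
        ∑ u ∈ range N, G (a + b u) ≤ (W : ℝ) * N / Nat.totient W + E := by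
      intro a ha
      rw [fmo_mem] at ha
      have h4 := hin a (fun i => by
        have := ha i
        push_cast at this
        constructor <;> linarith [this.1, this.2])
      rw [abs_le] at h4
      linarith [h4.2]
    refine (Finset.sum_le_sum h3).trans (le_of_eq ?_)
    rw [Finset.sum_const, nsmul_eq_mul, (hCar d _ _).1]
    push_cast
    rfl
  · intro hR
    have h1 : ∀ u ∈ range N,
        ∑ a ∈ Bx (fun i => A i + R) (fun i => h i - 2 * R), G (a + b u) ≤ ∑ g ∈ Bx A h, G g :=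
      fun u hu => (hTra d R A (b u) h G hG0 (hb1 u (mem_range.1 hu))).2 hR
    have h2 := Finset.sum_le_sum h1
    rw [Finset.sum_const, card_range, nsmul_eq_mul, Finset.sum_comm] at h2
    refine le_trans ?_ h2
    have h3 : ∀ a ∈ Bx (fun i => A i + R) (fun i => h i - 2 * R),
        (W : ℝ) * N / Nat.totient W - E ≤ ∑ u ∈ range N, G (a + b u) := by
      intro a ha
      rw [fmo_mem] at ha
      have h4 := hin a (fun i => by
        have h5 := ha i
        have h6 : ((h i - 2 * R : ℕ) : ℤ) = (h i : ℤ) - 2 * R := by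
          rw [Nat.cast_sub (hR i)]
          push_cast
          ring
        rw [h6] at h5
        have h7 : (0 : ℤ) ≤ R := Int.natCast_nonneg _
        constructor <;> linarith [h5.1, h5.2])
      rw [abs_le] at h4
      linarith [h4.1]
    refine le_trans (le_of_eq ?_) (Finset.sum_le_sum h3)
    rw [Finset.sum_const, nsmul_eq_mul, (hCar d _ _).1, Nat.cast_prod]

end Pool.Agent.Helper98.PV
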