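import Pool.Agent.Helper92.PV.St

/-!
# Project PV, module DY5: all solutions in a dyadic range with small smallest coordinate
-/

set_option autoImplicit false

namespace Pool.Agent.Helper98.PV

open Finset
open Pool.Agent.Helper92.PV Pool.Agent.Helper92.PU Pool.Agent.Helper92.PW

/-- the greatest common divisor of the coordinates -/
def gg (p : Pt) : ℕ := Int.gcd (Int.gcd p.1 p.2.1 : ℤ) p.2.2

theorem gg_dvd (p : Pt) : (gg p : ℤ) ∣ p.1 ∧ (gg p : ℤ) ∣ p.2.1 ∧ (gg p : ℤ) ∣ p.2.2 := by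
  have h1 : (gg p : ℤ) ∣ (Int.gcd p.1 p.2.1 : ℤ) := Int.gcd_dvd_left ..
  exact ⟨h1.trans (Int.gcd_dvd_left ..), h1.trans (Int.gcd_dvd_right ..), Int.gcd_dvd_right ..⟩

theorem dvd_gg (p : Pt) (e : ℤ) (h1 : e ∣ p.1) (h2 : e ∣ p.2.1) (h3 : e ∣ p.2.2) :
    e ∣ (gg p : ℤ) := Int.dvd_coe_gcd (Int.dvd_coe_gcd h1 h2) h3

/-- the quotient by `d` -/
def qd (d : ℕ) (p : Pt) : Pt := (p.1 / d, p.2.1 / d, p.2.2 / d)

/-- the bound -/
noncomputable def GG (ε B X : ℝ) : ℝ :=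
  (X * B ^ (-(1 / 4) : ℝ) + 1) * B ^ (1 / 10 + ε : ℝ)

theorem GG_nonneg (ε B X : ℝ) (hB : 0 ≤ B) (hX : 0 ≤ X) : 0 ≤ GG ε B X := by
  unfold GG
  positivity

theorem GG_div (ε B X d : ℝ) (hε : 0 < ε) (hB : 1 ≤ B) (hX : 0 ≤ X) (hd : 1 ≤ d) :
    GG ε (B / d) X ≤ d * GG ε B X := by
  have hB0 : 0 < B := by linarith
  have hd0 : 0 < d := by linarith
  have hle : B / d ≤ B := div_le_self hB0.le hd
  have h1 : (B / d) ^ (-(1 / 4) : ℝ) ≤ d * B ^ (-(1 / 4) : ℝ) := by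
    rw [Real.div_rpow hB0.le hd0.le, Real.rpow_neg hd0.le, div_inv_eq_mul, mul_comm]
    apply mul_le_mul_of_nonneg_right _ (by positivity)
    calc d ^ (1 / 4 : ℝ) ≤ d ^ (1 : ℝ) := Real.rpow_le_rpow_of_exponent_le hd (by norm_num)
      _ = d := Real.rpow_one d
  have h3 : (B / d) ^ (1 / 10 + ε : ℝ) ≤ B ^ (1 / 10 + ε : ℝ) :=
    Real.rpow_le_rpow (by positivity) hle (by linarith)
  unfold GG
  calc (X * (B / d) ^ (-(1 / 4) : ℝ) + 1) * (B / d) ^ (1 / 10 + ε : ℝ)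
      ≤ (X * (d * B ^ (-(1 / 4) : ℝ)) + d) * B ^ (1 / 10 + ε : ℝ) := by
        apply mul_le_mul _ h3 (by positivity) (by positivity)
        exact add_le_add (mul_le_mul_of_nonneg_left h1 hX) hd
    _ = d * ((X * B ^ (-(1 / 4) : ℝ) + 1) * B ^ (1 / 10 + ε : ℝ)) := by ring

/-- solutions with a fixed greatest common divisor -/
theorem fiber {k : ℤ} (hk : NC k) {d : ℕ} {C ε : ℝ} (hC : 0 < C) (hε : 0 < ε)
    (h : (d : ℤ) ^ 3 ∣ k → 1 ≤ d → ∀ B X : ℝ, 1 ≤ B → 0 ≤ X → ∀ T : Finset Pt,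
      (∀ p ∈ T, Fm p = k / (d : ℤ) ^ 3 ∧ Prm p ∧ |(p.1 : ℝ)| ≤ |(p.2.1 : ℝ)| ∧
        |(p.2.1 : ℝ)| ≤ |(p.2.2 : ℝ)| ∧ B / 2 < |(p.2.2 : ℝ)| ∧ |(p.2.2 : ℝ)| ≤ B ∧
        |(p.1 : ℝ)| ≤ X) →
      (T.card : ℝ) ≤ C * GG ε B X) (B X : ℝ) (hB : 1 ≤ B) (hX : 0 ≤ X) (T : Finset Pt)
    (hT : ∀ p ∈ T, gg p = d ∧ Fm p = k ∧ |(p.1 : ℝ)| ≤ |(p.2.1 : ℝ)| ∧
      |(p.2.1 : ℝ)| ≤ |(p.2.2 : ℝ)| ∧ B / 2 < |(p.2.2 : ℝ)| ∧ |(p.2.2 : ℝ)| ≤ B ∧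
      |(p.1 : ℝ)| ≤ X) :
    (T.card : ℝ) ≤ C * (d + 1) * GG ε B X := by
  classical
  have hG0 := GG_nonneg ε B X (by linarith) hX
  rcases T.eq_empty_or_nonempty with rfl | ⟨p₀, hp₀⟩
  · simp only [Finset.card_empty, Nat.cast_zero]
    positivity
  have hdiv : ∀ p ∈ T, ∃ a b c : ℤ, p = ((d : ℤ) * a, (d : ℤ) * b, (d : ℤ) * c) := by
    intro p hp
    obtain ⟨⟨a, ha⟩, ⟨b, hb⟩, ⟨c, hc⟩⟩ := gg_dvd p
    rw [(hT p hp).1] at ha hb hc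
    exact ⟨a, b, c, Prod.ext ha (Prod.ext hb hc)⟩
  have hk0 : k ≠ 0 := by
    rintro rfl
    exact hk 0 (by norm_num)
  have hd1 : 1 ≤ d := by
    rcases Nat.eq_zero_or_pos d with h0 | h0
    · exfalso
      obtain ⟨a, b, c, he⟩ := hdiv p₀ hp₀
      have hF := (hT p₀ hp₀).2.1
      rw [he, h0] at hF
      apply hk0
      rw [← hF]
      simp [Fm]
    · exact h0
  have hdz : (d : ℤ) ≠ 0 := by
    have : (0 : ℤ) < d := by exact_mod_cast hd1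
    exact this.ne'
  have hdr : (0 : ℝ) < d := by exact_mod_cast hd1
  have hd1r : (1 : ℝ) ≤ d := by exact_mod_cast hd1
  have hF3 : ∀ a b c : ℤ, Fm ((d : ℤ) * a, (d : ℤ) * b, (d : ℤ) * c)
      = (d : ℤ) ^ 3 * Fm (a, b, c) := by
    intro a b c
    simp only [Fm]
    ring
  have hd3 : (d : ℤ) ^ 3 ∣ k := by
    obtain ⟨a, b, c, he⟩ := hdiv p₀ hp₀
    have hF := (hT p₀ hp₀).2.1
    rw [he, hF3] at hF
    exact ⟨_, hF.symm⟩
  have hq : ∀ a b c : ℤ, qd d ((d : ℤ) * a, (d : ℤ) * b, (d : ℤ) * c) = (a, b, c) := by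
    intro a b c
    simp only [qd, Int.mul_ediv_cancel_left _ hdz]
  have hinj : Set.InjOn (qd d) (T : Set Pt) := by
    intro p hp q hq' hpq
    obtain ⟨a, b, c, he⟩ := hdiv p hp
    obtain ⟨a', b', c', he'⟩ := hdiv q hq'
    rw [he, he', hq, hq] at hpq
    rw [he, he']
    simp only [Prod.mk.injEq] at hpq
    obtain ⟨h1, h2, h3⟩ := hpq
    rw [h1, h2, h3]
  have hcard : (T.image (qd d)).card = T.card := Finset.card_image_of_injOn hinj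
  have habs : ∀ a : ℤ, |(((d : ℤ) * a : ℤ) : ℝ)| = d * |(a : ℝ)| := by
    intro a
    push_cast
    rw [abs_mul, abs_of_pos hdr]
  have key : ∀ p ∈ T.image (qd d), Fm p = k / (d : ℤ) ^ 3 ∧ Prm p ∧
      |(p.1 : ℝ)| ≤ |(p.2.1 : ℝ)| ∧ |(p.2.1 : ℝ)| ≤ |(p.2.2 : ℝ)| ∧
      (B / d) / 2 < |(p.2.2 : ℝ)| ∧ |(p.2.2 : ℝ)| ≤ B / d ∧ |(p.1 : ℝ)| ≤ X := by
    intro p hp
    rw [Finset.mem_image] at hp
    obtain ⟨p', hp', rfl⟩ := hp
    obtain ⟨a, b, c, he⟩ := hdiv p' hp'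
    obtain ⟨g1, g2, g3, g4, g5, g6, g7⟩ := hT p' hp'
    rw [he] at g1 g2 g3 g4 g5 g6 g7
    rw [he, hq]
    rw [hF3] at g2
    simp only [habs] at g3 g4 g5 g6 g7
    refine ⟨?_, ?_, ?_, ?_, ?_, ?_, ?_⟩
    · rw [← g2, Int.mul_ediv_cancel_left _ (pow_ne_zero 3 hdz)]
    · intro e h1 h2 h3
      have h4 : (d : ℤ) * e ∣ (gg ((d : ℤ) * a, (d : ℤ) * b, (d : ℤ) * c) : ℤ) :=
        dvd_gg _ _ (mul_dvd_mul_left _ h1) (mul_dvd_mul_left _ h2) (mul_dvd_mul_left _ h3)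
      rw [g1] at h4
      have h5 : (d : ℤ) * e ∣ (d : ℤ) * 1 := by rwa [mul_one]
      exact isUnit_of_dvd_one ((mul_dvd_mul_iff_left hdz).1 h5)
    · exact le_of_mul_le_mul_left g3 hdr
    · exact le_of_mul_le_mul_left g4 hdr
    · rw [div_div, div_lt_iff₀ (by positivity)]
      linarith
    · rw [le_div_iff₀ hdr]
      linarith
    · show |(a : ℝ)| ≤ X
      exact (le_mul_of_one_le_left (abs_nonneg (a : ℝ)) hd1r).trans g7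
  have hBd : 1 ≤ B / d := by
    obtain ⟨-, -, -, -, h5, h6, -⟩ := key _ (Finset.mem_image_of_mem _ hp₀)
    have h7 : (0 : ℝ) < |((qd d p₀).2.2 : ℝ)| := lt_of_le_of_lt (by positivity) h5
    have h8 : (qd d p₀).2.2 ≠ 0 := by
      intro h9
      rw [h9] at h7
      simp at h7
    have h9 : (1 : ℤ) ≤ |(qd d p₀).2.2| := Int.one_le_abs h8
    have h10 : (1 : ℝ) ≤ |((qd d p₀).2.2 : ℝ)| := by exact_mod_cast h9
    linarith
  have hfin := h hd3 hd1 (B / d) X hBd hX (T.image (qd d)) key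
  rw [hcard] at hfin
  have h11 := GG_div ε B X d hε hB hX hd1r
  calc (T.card : ℝ) ≤ C * GG ε (B / d) X := hfin
    _ ≤ C * (d * GG ε B X) := mul_le_mul_of_nonneg_left h11 hC.le
    _ ≤ C * (d + 1) * GG ε B X := by nlinarith [mul_nonneg hC.le hG0]

/-- sorted solutions -/
theorem sorted (hGE3 : StGE3) {k : ℤ} (hk : NC k) {ε : ℝ} (hε : 0 < ε) :
    ∃ C : ℝ, 0 < C ∧ ∀ B X : ℝ, 1 ≤ B → 0 ≤ X →
    ∀ T : Finset Pt, (∀ p ∈ T, Fm p = k ∧ |(p.1 : ℝ)| ≤ |(p.2.1 : ℝ)| ∧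
      |(p.2.1 : ℝ)| ≤ |(p.2.2 : ℝ)| ∧ B / 2 < |(p.2.2 : ℝ)| ∧ |(p.2.2 : ℝ)| ≤ B ∧
      |(p.1 : ℝ)| ≤ X) →
    (T.card : ℝ) ≤ C * GG ε B X := by
  classical
  have hk0 : k ≠ 0 := by
    rintro rfl
    exact hk 0 (by norm_num)
  have hex : ∀ d : ℕ, ∃ C : ℝ, 0 < C ∧ ((d : ℤ) ^ 3 ∣ k → 1 ≤ d → ∀ B X : ℝ, 1 ≤ B → 0 ≤ X →
      ∀ T : Finset Pt, (∀ p ∈ T, Fm p = k / (d : ℤ) ^ 3 ∧ Prm p ∧ |(p.1 : ℝ)| ≤ |(p.2.1 : ℝ)| ∧
        |(p.2.1 : ℝ)| ≤ |(p.2.2 : ℝ)| ∧ B / 2 < |(p.2.2 : ℝ)| ∧ |(p.2.2 : ℝ)| ≤ B ∧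
        |(p.1 : ℝ)| ≤ X) →
      (T.card : ℝ) ≤ C * GG ε B X) := by
    intro d
    by_cases hd : (d : ℤ) ^ 3 ∣ k ∧ 1 ≤ d
    · have hNC : NC (k / (d : ℤ) ^ 3) := by
        intro m hm
        apply hk (d * m)
        rw [mul_pow, hm, Int.mul_ediv_cancel' hd.1]
      obtain ⟨C, hC, h⟩ := hGE3 _ ε hNC hε
      refine ⟨C, hC, fun _ _ B X hB hX T hT => ?_⟩
      have := h B X hB hX T fun p hp => ?_
      · unfold GG
        rwa [← mul_assoc]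
      · obtain ⟨g1, g2, g3, g4, g5, g6, g7⟩ := hT p hp
        exact ⟨⟨g1, g2, g3, g4, g5, g6⟩, g7⟩
    · exact ⟨1, one_pos, fun h1 h2 => absurd ⟨h1, h2⟩ hd⟩
  choose Cf hCf hCf' using hex
  refine ⟨∑ d ∈ Finset.range (k.natAbs + 1), Cf d * (d + 1),
    Finset.sum_pos (fun d _ => mul_pos (hCf d) (by positivity)) ⟨0, by simp⟩, ?_⟩
  intro B X hB hX T hT
  have hmaps : ∀ p ∈ T, gg p ∈ Finset.range (k.natAbs + 1) := by
    intro p hp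
    obtain ⟨h1, h2, h3⟩ := gg_dvd p
    have hF := (hT p hp).1
    have hdk : (gg p : ℤ) ∣ k := by
      rw [← hF]
      unfold Fm
      exact dvd_add (dvd_add (dvd_pow h1 (by norm_num)) (dvd_pow h2 (by norm_num)))
        (dvd_pow h3 (by norm_num))
    have h4 : gg p ≤ k.natAbs := Nat.le_of_dvd (Int.natAbs_pos.2 hk0) (Int.natCast_dvd.1 hdk)
    rw [Finset.mem_range]
    omega
  rw [Finset.card_eq_sum_card_fiberwise hmaps, Nat.cast_sum, Finset.sum_mul]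
  apply Finset.sum_le_sum
  intro d _
  apply fiber hk (hCf d) hε (hCf' d) B X hB hX
  intro p hp
  rw [Finset.mem_filter] at hp
  exact ⟨hp.2, hT p hp.1⟩

/-- the largest absolute value -/
noncomputable def mx (p : Pt) : ℝ := max |(p.1 : ℝ)| (max |(p.2.1 : ℝ)| |(p.2.2 : ℝ)|)

/-- the solutions sorted by one permutation -/
theorem onePerm {k : ℤ} {B X R : ℝ}
    (h : ∀ T : Finset Pt, (∀ p ∈ T, Fm p = k ∧ |(p.1 : ℝ)| ≤ |(p.2.1 : ℝ)| ∧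
      |(p.2.1 : ℝ)| ≤ |(p.2.2 : ℝ)| ∧ B / 2 < |(p.2.2 : ℝ)| ∧ |(p.2.2 : ℝ)| ≤ B ∧
      |(p.1 : ℝ)| ≤ X) → (T.card : ℝ) ≤ R)
    (σ : Pt → Pt) (hσ : Function.Injective σ) (hF : ∀ p, Fm (σ p) = Fm p)
    (hm : ∀ p, mx (σ p) = mx p)
    (hmin : ∀ p, |((σ p).1 : ℝ)| ≤ |((σ p).2.1 : ℝ)| → |((σ p).2.1 : ℝ)| ≤ |((σ p).2.2 : ℝ)| →
      |((σ p).1 : ℝ)| ≤ |(p.2.2 : ℝ)|) (T : Finset Pt)
    (hT : ∀ p ∈ T, (Fm p = k ∧ B / 2 < mx p ∧ mx p ≤ B ∧ |(p.2.2 : ℝ)| ≤ X) ∧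
      |((σ p).1 : ℝ)| ≤ |((σ p).2.1 : ℝ)| ∧ |((σ p).2.1 : ℝ)| ≤ |((σ p).2.2 : ℝ)|) :
    (T.card : ℝ) ≤ R := by
  classical
  rw [← Finset.card_image_of_injective T hσ]
  apply h
  intro q hq
  rw [Finset.mem_image] at hq
  obtain ⟨p, hp, rfl⟩ := hq
  obtain ⟨⟨h1, h2, h3, h4⟩, h5, h6⟩ := hT p hp
  have h7 : mx (σ p) = |((σ p).2.2 : ℝ)| := by
    unfold mx
    rw [max_eq_right h6, max_eq_right (h5.trans h6)]
  rw [← hm p, h7] at h2 h3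
  exact ⟨(hF p).trans h1, h5, h6, h2, h3, (hmin p h5 h6).trans h4⟩

theorem hDY5 (hGE3 : StGE3) : StDY5 := by
  classical
  intro k ε hk hε
  obtain ⟨C, hC, h⟩ := sorted hGE3 hk hε
  refine ⟨6 * C, by positivity, ?_⟩
  intro B X hB hX T hT
  have hT' : ∀ p ∈ T, Fm p = k ∧ B / 2 < mx p ∧ mx p ≤ B ∧ |(p.2.2 : ℝ)| ≤ X := hT
  set R : ℝ := C * GG ε B X with hR
  have hone := fun (σ : Pt → Pt) => onePerm (k := k) (B := B) (X := X) (R := R)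
    (h B X hB hX) σ
  let S : (Pt → Pt) → Finset Pt := fun σ => T.filter fun p =>
    |((σ p).1 : ℝ)| ≤ |((σ p).2.1 : ℝ)| ∧ |((σ p).2.1 : ℝ)| ≤ |((σ p).2.2 : ℝ)|
  have hS : ∀ σ : Pt → Pt, ∀ p ∈ S σ, (Fm p = k ∧ B / 2 < mx p ∧ mx p ≤ B ∧
      |(p.2.2 : ℝ)| ≤ X) ∧
      |((σ p).1 : ℝ)| ≤ |((σ p).2.1 : ℝ)| ∧ |((σ p).2.1 : ℝ)| ≤ |((σ p).2.2 : ℝ)| := by
    intro σ p hp
    rw [Finset.mem_filter] at hp
    exact ⟨hT' p hp.1, hp.2⟩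
  have c1 : ((S fun p => (p.1, p.2.1, p.2.2)).card : ℝ) ≤ R := by
    refine hone (fun p => (p.1, p.2.1, p.2.2)) (fun p q hpq => ?_) (fun p => rfl) (fun p => rfl)
      (fun p a b => a.trans b) _
      (hS _)
    simp only [Prod.mk.injEq] at hpq
    exact Prod.ext hpq.1 (Prod.ext hpq.2.1 hpq.2.2)
  have c2 : ((S fun p => (p.2.1, p.1, p.2.2)).card : ℝ) ≤ R := by
    refine hone (fun p => (p.2.1, p.1, p.2.2)) (fun p q hpq => ?_) (fun p => ?_) (fun p => ?_)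
      (fun p a b => a.trans b) _
      (hS _)
    · simp only [Prod.mk.injEq] at hpq
      exact Prod.ext hpq.2.1 (Prod.ext hpq.1 hpq.2.2)
    · simp only [Fm]; ring
    · simp only [mx]; exact max_left_comm _ _ _
  have c3 : ((S fun p => (p.1, p.2.2, p.2.1)).card : ℝ) ≤ R := by
    refine hone (fun p => (p.1, p.2.2, p.2.1)) (fun p q hpq => ?_) (fun p => ?_) (fun p => ?_)
      (fun p a b => a) _
      (hS _)
    · simp only [Prod.mk.injEq] at hpq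
      exact Prod.ext hpq.1 (Prod.ext hpq.2.2 hpq.2.1)
    · simp only [Fm]; ring
    · simp only [mx]; rw [max_comm |(p.2.2 : ℝ)|]
  have c4 : ((S fun p => (p.2.2, p.1, p.2.1)).card : ℝ) ≤ R := by
    refine hone (fun p => (p.2.2, p.1, p.2.1)) (fun p q hpq => ?_) (fun p => ?_) (fun p => ?_)
      (fun p a b => le_refl _) _
      (hS _)
    · simp only [Prod.mk.injEq] at hpq
      exact Prod.ext hpq.2.1 (Prod.ext hpq.2.2 hpq.1)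
    · simp only [Fm]; ring
    · simp only [mx]; rw [max_left_comm, max_comm |(p.2.2 : ℝ)|]
  have c5 : ((S fun p => (p.2.1, p.2.2, p.1)).card : ℝ) ≤ R := by
    refine hone (fun p => (p.2.1, p.2.2, p.1)) (fun p q hpq => ?_) (fun p => ?_) (fun p => ?_)
      (fun p a b => a) _
      (hS _)
    · simp only [Prod.mk.injEq] at hpq
      exact Prod.ext hpq.2.2 (Prod.ext hpq.1 hpq.2.1)
    · simp only [Fm]; ring
    · simp only [mx]; rw [max_comm |(p.2.2 : ℝ)|, max_left_comm]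
  have c6 : ((S fun p => (p.2.2, p.2.1, p.1)).card : ℝ) ≤ R := by
    refine hone (fun p => (p.2.2, p.2.1, p.1)) (fun p q hpq => ?_) (fun p => ?_) (fun p => ?_)
      (fun p a b => le_refl _) _
      (hS _)
    · simp only [Prod.mk.injEq] at hpq
      exact Prod.ext hpq.2.2 (Prod.ext hpq.2.1 hpq.1)
    · simp only [Fm]; ring
    · simp only [mx]
      rw [max_comm |(p.2.1 : ℝ)| |(p.1 : ℝ)|, max_left_comm, max_comm |(p.2.2 : ℝ)|]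
  have hsub : T ⊆ (((((S fun p => (p.1, p.2.1, p.2.2)) ∪ (S fun p => (p.2.1, p.1, p.2.2))) ∪
      (S fun p => (p.1, p.2.2, p.2.1))) ∪ (S fun p => (p.2.2, p.1, p.2.1))) ∪
      (S fun p => (p.2.1, p.2.2, p.1))) ∪ (S fun p => (p.2.2, p.2.1, p.1)) := by
    intro p hp
    simp only [Finset.mem_union, S, Finset.mem_filter, hp, true_and]
    rcases le_total |(p.1 : ℝ)| |(p.2.1 : ℝ)| with h1 | h1 <;>
    rcases le_total |(p.2.1 : ℝ)| |(p.2.2 : ℝ)| with h2 | h2 <;>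
    rcases le_total |(p.1 : ℝ)| |(p.2.2 : ℝ)| with h3 | h3 <;>
    simp only [h1, h2, h3, true_and, and_true, true_or, or_true, and_self]
  have hc := (Finset.card_le_card hsub).trans (Finset.card_union_le _ _)
  have hc1 := Finset.card_union_le ((((S fun p => (p.1, p.2.1, p.2.2)) ∪
      (S fun p => (p.2.1, p.1, p.2.2))) ∪
      (S fun p => (p.1, p.2.2, p.2.1))) ∪ (S fun p => (p.2.2, p.1, p.2.1)))
      (S fun p => (p.2.1, p.2.2, p.1))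
  have hc2 := Finset.card_union_le (((S fun p => (p.1, p.2.1, p.2.2)) ∪
      (S fun p => (p.2.1, p.1, p.2.2))) ∪
      (S fun p => (p.1, p.2.2, p.2.1))) (S fun p => (p.2.2, p.1, p.2.1))
  have hc3 := Finset.card_union_le ((S fun p => (p.1, p.2.1, p.2.2)) ∪
      (S fun p => (p.2.1, p.1, p.2.2))) (S fun p => (p.1, p.2.2, p.2.1))
  have hc4 := Finset.card_union_le (S fun p => (p.1, p.2.1, p.2.2))
      (S fun p => (p.2.1, p.1, p.2.2))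
  have hcc : T.card ≤ (S fun p => (p.1, p.2.1, p.2.2)).card +
      (S fun p => (p.2.1, p.1, p.2.2)).card + (S fun p => (p.1, p.2.2, p.2.1)).card +
      (S fun p => (p.2.2, p.1, p.2.1)).card + (S fun p => (p.2.1, p.2.2, p.1)).card +
      (S fun p => (p.2.2, p.2.1, p.1)).card := by omega
  have hcc' : (T.card : ℝ) ≤ (S fun p => (p.1, p.2.1, p.2.2)).card +
      (S fun p => (p.2.1, p.1, p.2.2)).card + (S fun p => (p.1, p.2.2, p.2.1)).card +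
      (S fun p => (p.2.2, p.1, p.2.1)).card + (S fun p => (p.2.1, p.2.2, p.1)).card +
      (S fun p => (p.2.2, p.2.1, p.1)).card := by exact_mod_cast hcc
  have hfin : (T.card : ℝ) ≤ 6 * R := by linarith
  calc (T.card : ℝ) ≤ 6 * R := hfin
    _ = 6 * C * (X * B ^ (-(1 / 4) : ℝ) + 1) * B ^ (1 / 10 + ε : ℝ) := by
      rw [hR]; unfold GG; ring

end Pool.Agent.Helper98.PV
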